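import Pool.Agent.Results.MP_37e5fa_nt.AllExponents

/-!
# The exact index of every number `2^t - 1` and `2^t + 1` modulo a prime `n^n + 1`

If `n^n + 1` is prime and `n ≥ 2`, then `n = 2^(2^k)`.  Let `t = 2^j s`, `s` odd, and
`j + r = k + 2^k`, `r ≥ 4`.  The `2^(r+1)`-th power residue symbol of `2^t - 1` modulo a prime
`n^n + 1` is given by a truncated `2`-adic logarithmic series with signs, and so is the `2^r`-th
power residue symbol of `2^t + 1`.  If the index is not `0`, then `n^n + 1` is prime if and only if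
the congruence holds, and if and only if `2^t - 1` (`2^t + 1`) has the order which the index gives.
-/

set_option autoImplicit false

namespace Pool.Agent.Results.MP_a70bdc_nt.AllExponents

/-- The sign `ε(k)`: it is `+1` if the least residue of `k / s` modulo `2^(r+1)` is less than
`2^r`, and `-1` otherwise. -/
def sgn (r s k : ℕ) : ℤ :=
  if ((k : ZMod (2 ^ (r + 1))) * (s : ZMod (2 ^ (r + 1)))⁻¹).val < 2 ^ r then 1 else -1

/-- `4 E ≡ s ∑_{k=1}^{2r+4} ε(k) 2^(2^j k) / k` modulo `2^(r+3)`, in the ring of rational numbers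
with odd denominator. -/
def Ind (j r s E : ℕ) : Prop :=
  ∃ d n : ℤ, Odd d ∧
    (d : ℚ) * (4 * E - s * ∑ k ∈ Finset.Icc 1 (2 * r + 4), (sgn r s k : ℚ) * 2 ^ (2 ^ j * k) / k) =
      2 ^ (r + 3) * n

theorem fermat_eq {k n : ℕ} (hn : n = 2 ^ 2 ^ k) : Nat.fermatNumber (k + 2 ^ k) = n ^ n + 1 := by
  unfold Nat.fermatNumber
  rw [pow_add, pow_mul, ← hn]

theorem result (k n r s : ℕ) (hn : n = 2 ^ 2 ^ k) (hr : 4 ≤ r) (hs : Odd s) :
    -- the predicted indices exist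
    (∀ j : ℕ, (∃ E : ℕ, Ind j r s E) ∧ (∃ E D : ℕ, Ind j (r + 1) s E ∧ Ind (j + 1) r s (E + D))) ∧
    -- the numbers `2^t - 1`, `t = 2^j s`, modulo `n^n + 1`
    (∀ j E : ℕ, j + r = k + 2 ^ k → Ind j r s E →
      ((n ^ n + 1).Prime →
        ((2 ^ (2 ^ j * s) - 1 : ℕ) : ZMod (n ^ n + 1)) ^ (n ^ n / 2 ^ (r + 1)) =
          2 ^ (2 ^ j * E)) ∧
      (¬ 2 ^ (r + 1) ∣ E →
        ((n ^ n + 1).Prime ↔
          ((2 ^ (2 ^ j * s) - 1 : ℕ) : ZMod (n ^ n + 1)) ^ (n ^ n / 2 ^ (r + 1)) =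
            2 ^ (2 ^ j * E)) ∧
        ((n ^ n + 1).Prime ↔
          orderOf ((2 ^ (2 ^ j * s) - 1 : ℕ) : ZMod (n ^ n + 1)) =
            n ^ n / 2 ^ padicValNat 2 E))) ∧
    -- the numbers `2^t + 1`, `t = 2^j s`, modulo `n^n + 1`
    (∀ j E D : ℕ, j + 1 + r = k + 2 ^ k → Ind j (r + 1) s E → Ind (j + 1) r s (E + D) →
      ((n ^ n + 1).Prime →
        ((2 ^ (2 ^ j * s) + 1 : ℕ) : ZMod (n ^ n + 1)) ^ (n ^ n / 2 ^ (r + 1)) =
          2 ^ (2 ^ (j + 1) * D)) ∧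
      (¬ 2 ^ (r + 1) ∣ D →
        ((n ^ n + 1).Prime ↔
          ((2 ^ (2 ^ j * s) + 1 : ℕ) : ZMod (n ^ n + 1)) ^ (n ^ n / 2 ^ (r + 1)) =
            2 ^ (2 ^ (j + 1) * D)) ∧
        ((n ^ n + 1).Prime ↔
          orderOf ((2 ^ (2 ^ j * s) + 1 : ℕ) : ZMod (n ^ n + 1)) =
            n ^ n / 2 ^ padicValNat 2 D))) := by
  have hnn : n ^ n = 2 ^ (2 ^ (k + 2 ^ k)) := by
    have := fermat_eq hn
    unfold Nat.fermatNumber at this
    omega
  have e1 : (n ^ n + 1 - 1) / 2 ^ (r + 1) = n ^ n / 2 ^ (r + 1) := by rw [Nat.add_sub_cancel]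
  have ev : ∀ m E : ℕ, m = k + 2 ^ k → r ≤ m → ¬ 2 ^ (r + 1) ∣ E →
      2 ^ (2 ^ m - padicValNat 2 E) = n ^ n / 2 ^ padicValNat 2 E := by
    intro m E hm hrm hd
    have hv : padicValNat 2 E ≤ r := by
      by_contra hvr
      apply hd
      exact (Nat.pow_dvd_pow 2 (by omega)).trans pow_padicValNat_dvd
    have hle : padicValNat 2 E ≤ 2 ^ m := by
      have : m < 2 ^ m := Nat.lt_two_pow_self
      omega
    rw [hnn, ← hm, Nat.pow_div hle (by norm_num)]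
  refine ⟨fun j => ?_, fun j E hjr hE => ?_, fun j E D hjr hE hD => ?_⟩
  · have h := Pool.Agent.Results.MP_37e5fa_nt.AllExponents.result j r s hr hs
    exact ⟨h.1, h.2.1⟩
  · have h := (Pool.Agent.Results.MP_37e5fa_nt.AllExponents.result j r s hr hs).2.2.1 E hE
    have hF : Nat.fermatNumber (j + r) = n ^ n + 1 := by rw [hjr]; exact fermat_eq hn
    rw [hF, e1] at h
    refine ⟨h.1, fun hd => ?_⟩
    have h2 := h.2 hd
    rw [ev (j + r) E hjr (by omega) hd] at h2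
    exact h2
  · have h := (Pool.Agent.Results.MP_37e5fa_nt.AllExponents.result j r s hr hs).2.2.2 E D hE hD
    have hF : Nat.fermatNumber (j + 1 + r) = n ^ n + 1 := by rw [hjr]; exact fermat_eq hn
    rw [hF, e1] at h
    refine ⟨h.1, fun hd => ?_⟩
    have h2 := h.2 hd
    rw [ev (j + 1 + r) D hjr (by omega) hd] at h2
    exact h2

end Pool.Agent.Results.MP_a70bdc_nt.AllExponents
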