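import Mathlib
import Pool.Agent.X37.NP.Fin
import Pool.Agent.W66.XG

set_option autoImplicit false

/-!
# Primes of the form `⌊(β n) ^ n⌋ + 1` for almost every `β`

For `β = 1` the integer `⌊(β n) ^ n⌋ + 1` is `n ^ n + 1`.  We prove that for almost every real
`β > 0` the number of `n ≤ N` for which `⌊(β n) ^ n⌋ + 1` is prime is
`log log N + O((log log N) ^ (1/2) (log log log N) ^ 2)`, that for every set `S` of positive integers
and almost every `β` there are infinitely many such `n` in `S` if and only if the sum of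
`1 / (n log n)` over `S` diverges (with the corresponding asymptotic law in this case), and that for
almost every `β` only finitely many powers of two `n` occur.
-/

namespace Pool.Agent.Results.MP_a70bdc_nt.AlmostEveryScale

open MeasureTheory Filter Topology Asymptotics
open Pool.Agent.X37.NP
open Pool.Agent.H305R2 (NN ff ff_nonneg ff_le_one)
open Pool.Agent.X10.AI (ff_one NN_floor)
open Pool.Agent.W66X (ae_of_exp')

/-- The integer `⌊(β n) ^ n⌋ + 1`; for `β = 1` it is `n ^ n + 1`. -/
noncomputable def value (β : ℝ) (n : ℕ) : ℕ := ⌊(β * n) ^ n⌋₊ + 1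

open Classical in
/-- The number of integers `2 ≤ n ≤ N` in `S` for which `value β n` is prime. -/
noncomputable def M (S : Set ℕ) (β : ℝ) (N : ℕ) : ℕ :=
  ((Finset.Icc 2 N).filter (fun n => n ∈ S ∧ (value β n).Prime)).card

open Classical in
/-- The sum of `1 / (n log n)` over the integers `2 ≤ n ≤ N` in `S`. -/
noncomputable def V (S : Set ℕ) (N : ℕ) : ℝ :=
  ∑ n ∈ (Finset.Icc 2 N).filter (fun n => n ∈ S), 1 / ((n : ℝ) * Real.log n)

/-- the logarithm of `n ^ n` -/
noncomputable def L (n : ℕ) : ℝ := n * Real.log n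

lemma amp : Amp L := by
  refine ⟨fun m n hm hmn => ?_, fun n hn => ?_, ⟨1, one_pos, ?_⟩, ⟨1, one_pos, ?_⟩⟩
  · have hm0 : (0 : ℝ) < m := by exact_mod_cast hm
    have hn0 : (0 : ℝ) < n := by exact_mod_cast (by omega : 0 < n)
    have h : Real.log m ≤ Real.log n := Real.log_le_log hm0 (by exact_mod_cast hmn)
    unfold L
    calc (n : ℝ) * (m * Real.log m) = (m * n) * Real.log m := by ring
      _ ≤ (m * n) * Real.log n := mul_le_mul_of_nonneg_left h (by positivity)
      _ = _ := by ring
  · have hn2 : (2 : ℝ) ≤ n := by exact_mod_cast hn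
    exact mul_pos (by linarith) (Real.log_pos (by linarith))
  · exact Eventually.of_forall fun n => by unfold L; rw [one_mul]
  · exact Eventually.of_forall fun n => by unfold L; rw [one_mul]

lemma exp_eq {n : ℕ} (hn : 1 ≤ n) (t : ℝ) : Real.exp (n * t + L n) = (Real.exp t * n) ^ n := by
  have hn0 : (0 : ℝ) < n := by exact_mod_cast hn
  unfold L
  rw [Real.exp_add, Real.exp_nat_mul, Real.exp_nat_mul, Real.exp_log hn0, mul_pow]

lemma NN_eq {t : ℝ} (ht : ∀ n : ℕ, 1 ≤ n → ∀ m : ℕ, Real.exp (n * t + L n) + 1 ≠ m) {n : ℕ}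
    (hn : 1 ≤ n) : NN (yy L 1 n t) = value (Real.exp t) n := by
  have h1 : yy L 1 n t = Real.log (Real.exp (n * t + L n) + 1) := rfl
  rw [h1, NN_floor (by positivity) (ht n hn), Nat.floor_add_one (Real.exp_pos _).le, exp_eq hn]
  rfl

lemma V_eq (S : Set ℕ) (N : ℕ) : VS L S N = V S N := by
  classical
  unfold VS V L
  rw [← Finset.sum_filter]
  refine Finset.sum_congr ?_ fun _ _ => rfl
  ext n
  rw [Finset.mem_filter, Finset.mem_filter, Finset.mem_range, Finset.mem_Icc]
  constructor
  · rintro ⟨h1, h2, h3⟩; exact ⟨⟨h3, by omega⟩, h2⟩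
  · rintro ⟨⟨h1, h2⟩, h3⟩; exact ⟨by omega, h3, h1⟩

lemma M_eq {t : ℝ} (ht : ∀ n : ℕ, 1 ≤ n → ∀ m : ℕ, Real.exp (n * t + L n) + 1 ≠ m) (S : Set ℕ)
    (N : ℕ) : CS L 1 S t N = (M S (Real.exp t) N : ℝ) := by
  classical
  unfold CS M
  have h1 : ∀ q ∈ Finset.range (N + 1), (if q ∈ S ∧ 2 ≤ q then ff 1 (yy L 1 q t) else 0) =
      if (q ∈ S ∧ 2 ≤ q) ∧ (value (Real.exp t) q).Prime then (1 : ℝ) else 0 := by
    intro q _
    by_cases h : q ∈ S ∧ 2 ≤ q
    · rw [if_pos h, ff_one, NN_eq ht (by omega)]
      by_cases hp : (value (Real.exp t) q).Prime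
      · rw [if_pos hp, if_pos ⟨h, hp⟩]
      · rw [if_neg hp, if_neg (fun hh => hp hh.2)]
    · rw [if_neg h, if_neg (fun hh => h hh.1)]
  rw [Finset.sum_congr rfl h1, ← Finset.sum_filter, Finset.sum_const, nsmul_eq_mul, mul_one]
  congr 2
  ext q
  rw [Finset.mem_filter, Finset.mem_filter, Finset.mem_range, Finset.mem_Icc]
  constructor
  · rintro ⟨h1, ⟨h2, h3⟩, h4⟩; exact ⟨⟨h3, by omega⟩, h2, h4⟩
  · rintro ⟨⟨h1, h2⟩, h3, h4⟩; exact ⟨by omega, ⟨h3, h1⟩, h4⟩

lemma V_univ (N : ℕ) : V Set.univ N = ∑ n ∈ Finset.Icc 2 N, 1 / ((n : ℝ) * Real.log n) := by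
  classical
  unfold V
  simp only [Set.mem_univ, Finset.filter_true]

lemma loglog_tendsto : Tendsto (fun N : ℕ => Real.log (Real.log N)) atTop atTop :=
  Real.tendsto_log_atTop.comp log_nat

lemma V_univ_tendsto : Tendsto (V Set.univ) atTop atTop := by
  refine tendsto_atTop_mono' _ ?_ (tendsto_atTop_add_const_right _ (-2) loglog_tendsto)
  filter_upwards [eventually_ge_atTop 2] with N hN
  have := (abs_le.1 (sum_abs N hN)).1
  rw [V_univ]
  linarith

/-- the law for sets -/
lemma law_set (S : Set ℕ) (hS : Tendsto (V S) atTop atTop) : ∀ᵐ β : ℝ, 0 < β →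
    (fun N : ℕ => (M S β N : ℝ) - V S N) =O[atTop]
      (fun N : ℕ => Real.sqrt (V S N) * (Real.log (V S N)) ^ 2) := by
  have hVe : VS L S = V S := funext fun N => V_eq S N
  refine ae_of_exp' ?_
  filter_upwards [law_all amp (s := 1) (by norm_num) S (by rw [hVe]; exact hS), ae_ne L 1] with t ht htn
  obtain ⟨B, hB, h⟩ := ht
  rw [hVe] at h
  simp only [M_eq htn] at h
  exact gr_isBigO hS hB h

/-- The numbers `⌊(β n) ^ n⌋ + 1` are `n ^ n + 1` for `β = 1`; for almost every `β > 0` the law
`log log N` with a square root error term holds for the primes among them; for every set `S` the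
primes with index in `S` are infinite in number, for almost every `β`, if and only if the sum of
`1 / (n log n)` over `S` diverges, and then they obey the corresponding law; for almost every `β`
only finitely many indices are powers of two. -/
theorem result :
    (∀ n : ℕ, value 1 n = n ^ n + 1) ∧
    (∀ᵐ β : ℝ, 0 < β →
      (fun N : ℕ => (M Set.univ β N : ℝ) - Real.log (Real.log N)) =O[atTop]
        (fun N : ℕ => Real.sqrt (Real.log (Real.log N)) *
          (Real.log (Real.log (Real.log N))) ^ 2)) ∧
    (∀ S : Set ℕ, Tendsto (V S) atTop atTop → ∀ᵐ β : ℝ, 0 < β →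
      (fun N : ℕ => (M S β N : ℝ) - V S N) =O[atTop]
        (fun N : ℕ => Real.sqrt (V S N) * (Real.log (V S N)) ^ 2)) ∧
    (∀ S : Set ℕ, ∀ᵐ β : ℝ, 0 < β →
      ({n : ℕ | n ∈ S ∧ (value β n).Prime}.Infinite ↔ Tendsto (V S) atTop atTop)) ∧
    (∀ᵐ β : ℝ, 0 < β → {n : ℕ | (∃ k : ℕ, n = 2 ^ k) ∧ (value β n).Prime}.Finite) := by
  have hinf : ∀ S : Set ℕ, ∀ᵐ β : ℝ, 0 < β →
      ({n : ℕ | n ∈ S ∧ (value β n).Prime}.Infinite ↔ Tendsto (V S) atTop atTop) := by
    intro S
    have hVe : VS L S = V S := funext fun N => V_eq S N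
    by_cases hS : Tendsto (V S) atTop atTop
    · filter_upwards [law_set S hS] with β hβ h0
      refine ⟨fun _ => hS, fun _ hfin => ?_⟩
      have h1 := hβ h0
      -- the count is bounded
      have hbd : ∀ N, (M S β N : ℝ) ≤ hfin.toFinset.card := by
        intro N
        classical
        unfold M
        have : ((Finset.Icc 2 N).filter (fun n => n ∈ S ∧ (value β n).Prime)) ⊆ hfin.toFinset := by
          intro n hn
          rw [Finset.mem_filter] at hn
          rw [Set.Finite.mem_toFinset]
          exact hn.2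
        exact_mod_cast Finset.card_le_card this
      obtain ⟨C, hC⟩ := h1.bound
      -- `sqrt V (log V) ^ 2 = o(V)`
      have hlit : Tendsto (fun x : ℝ => C * (Real.sqrt x * (Real.log x) ^ 2) / x) atTop (𝓝 0) := by
        have h2 : (fun x : ℝ => (Real.log x) ^ 2) =o[atTop] fun x : ℝ => x ^ ((1 : ℝ) / 2) := by
          have h3 := isLittleO_log_rpow_rpow_atTop 2 (show (0 : ℝ) < 1 / 2 by norm_num)
          refine h3.congr' ?_ (by rfl)
          filter_upwards [eventually_ge_atTop 1] with x hx
          rw [← Real.rpow_natCast]; norm_num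
        have h4 : Tendsto (fun x : ℝ => (Real.log x) ^ 2 / x ^ ((1 : ℝ) / 2)) atTop (𝓝 0) :=
          h2.tendsto_div_nhds_zero
        have h5 := h4.const_mul C
        rw [mul_zero] at h5
        refine h5.congr' ?_
        filter_upwards [eventually_gt_atTop 0] with x hx
        rw [← Real.sqrt_eq_rpow]
        have hs0 : 0 < Real.sqrt x := Real.sqrt_pos.2 hx
        have hxx : x = Real.sqrt x * Real.sqrt x := (Real.mul_self_sqrt hx.le).symm
        have e : C * (Real.sqrt x * Real.log x ^ 2) / x =
            C * (Real.sqrt x * Real.log x ^ 2) / (Real.sqrt x * Real.sqrt x) := by rw [← hxx]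
        rw [e]
        field_simp
      have h2 := (hlit.comp hS).eventually_lt_const (show (0 : ℝ) < 1 / 2 by norm_num)
      obtain ⟨N, hN1, hN2, hN3⟩ := (hC.and (h2.and (hS.eventually_ge_atTop
        (2 * hfin.toFinset.card + 1)))).exists
      have hc0 : (0 : ℝ) ≤ hfin.toFinset.card := Nat.cast_nonneg _
      have hV0 : 0 < V S N := by linarith
      simp only [Function.comp] at hN2
      rw [div_lt_iff₀ hV0] at hN2
      rw [Real.norm_eq_abs, Real.norm_eq_abs, abs_of_nonneg (by positivity :
        0 ≤ Real.sqrt (V S N) * (Real.log (V S N)) ^ 2)] at hN1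
      have h3 := (abs_le.1 hN1).1
      have h4 := hbd N
      linarith
    · have h1 := fin_all amp (s := 1) (by norm_num) S (by rw [hVe]; exact hS)
      refine ae_of_exp' (P := fun β : ℝ =>
        ({n : ℕ | n ∈ S ∧ (value β n).Prime}.Infinite ↔ Tendsto (V S) atTop atTop)) ?_
      filter_upwards [h1, ae_ne L 1] with t ht htn
      refine ⟨fun h => absurd ?_ h, fun h => absurd h hS⟩
      have h2 : {n : ℕ | n ∈ S ∧ (value (Real.exp t) n).Prime} ⊆
          {q : ℕ | q ∈ S ∧ (NN (yy L 1 q t)).Prime} ∪ {0} := by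
        intro n hn
        rcases Nat.eq_zero_or_pos n with h | h
        · exact Or.inr h
        · left
          refine ⟨hn.1, ?_⟩
          rw [NN_eq htn h]
          exact hn.2
      exact (ht.union (Set.finite_singleton 0)).subset h2
  refine ⟨fun n => ?_, ?_, law_set, hinf, ?_⟩
  · unfold value
    rw [one_mul]
    have h : ((n : ℝ) ^ n) = ((n ^ n : ℕ) : ℝ) := by push_cast; rfl
    rw [h, Nat.floor_natCast]
  · filter_upwards [law_set Set.univ V_univ_tendsto] with β hβ h0
    have h1 := hβ h0
    have hV : ∀ᶠ N : ℕ in atTop, |V Set.univ N - Real.log (Real.log N)| ≤ 2 := by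
      filter_upwards [eventually_ge_atTop 2] with N hN
      rw [V_univ]
      exact sum_abs N hN
    have hll := loglog_tendsto
    have h2 : (fun N : ℕ => Real.sqrt (V Set.univ N) * (Real.log (V Set.univ N)) ^ 2) =O[atTop]
        (fun N : ℕ => Real.sqrt (Real.log (Real.log N)) *
          (Real.log (Real.log (Real.log N))) ^ 2) := by
      refine IsBigO.of_bound 8 ?_
      filter_upwards [hV, hll.eventually_ge_atTop 4] with N hN hN4
      set x := Real.log (Real.log N) with hx
      set v := V Set.univ N with hv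
      have hN' := abs_le.1 hN
      have hv2 : 2 ≤ v := by linarith
      have hvx : v ≤ 2 * x := by linarith
      have hs : Real.sqrt v ≤ 2 * Real.sqrt x := by
        have e : 2 * Real.sqrt x = Real.sqrt (4 * x) := by
          rw [Real.sqrt_mul (by norm_num), show (4 : ℝ) = 2 ^ 2 by norm_num,
            Real.sqrt_sq (by norm_num)]
        rw [e]
        exact Real.sqrt_le_sqrt (by linarith)
      have hlv0 : 0 ≤ Real.log v := Real.log_nonneg (by linarith)
      have hlv : Real.log v ≤ 2 * Real.log x := by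
        calc Real.log v ≤ Real.log (x * x) := Real.log_le_log (by linarith) (by nlinarith)
          _ = _ := by rw [Real.log_mul (by linarith) (by linarith)]; ring
      have hlx0 : 0 ≤ Real.log x := Real.log_nonneg (by linarith)
      rw [Real.norm_eq_abs, Real.norm_eq_abs, abs_of_nonneg (by positivity),
        abs_of_nonneg (by positivity)]
      calc Real.sqrt v * Real.log v ^ 2 ≤ (2 * Real.sqrt x) * (2 * Real.log x) ^ 2 := by gcongr
        _ = _ := by ring
    have h3 : (fun N : ℕ => V Set.univ N - Real.log (Real.log N)) =O[atTop]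
        (fun N : ℕ => Real.sqrt (Real.log (Real.log N)) *
          (Real.log (Real.log (Real.log N))) ^ 2) := by
      refine IsBigO.of_bound 2 ?_
      filter_upwards [hV, hll.eventually_ge_atTop 4] with N hN hN4
      set x := Real.log (Real.log N) with hx
      have hs : 1 ≤ Real.sqrt x := Real.one_le_sqrt.2 (by linarith)
      have hl : 1 ≤ Real.log x := by
        rw [Real.le_log_iff_exp_le (by linarith)]
        have := Real.exp_one_lt_d9
        linarith
      have h4 : 1 ≤ Real.sqrt x * Real.log x ^ 2 := by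
        have : 1 ≤ Real.log x ^ 2 := one_le_pow₀ hl
        nlinarith
      rw [Real.norm_eq_abs, Real.norm_eq_abs, abs_of_nonneg (by linarith :
        0 ≤ Real.sqrt x * Real.log x ^ 2)]
      linarith
    refine ((h1.trans h2).add h3).congr_left fun N => ?_
    ring
  · set S : Set ℕ := {n : ℕ | ∃ k : ℕ, n = 2 ^ k} with hS
    have hnot : ¬ Tendsto (V S) atTop atTop := by
      intro h
      have hl2 := Real.log_two_gt_d9
      have hbd : ∀ N, V S N ≤ 4 := by
        intro N
        classical
        unfold V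
        have hsub : (Finset.Icc 2 N).filter (fun n => n ∈ S) ⊆
            (Finset.Icc 1 N).image (fun k : ℕ => (2 ^ k : ℕ)) := by
          intro n hn
          rw [Finset.mem_filter, Finset.mem_Icc] at hn
          obtain ⟨⟨h1, h2⟩, k, hk⟩ := hn
          rw [Finset.mem_image]
          refine ⟨k, ?_, hk.symm⟩
          rw [Finset.mem_Icc]
          constructor
          · by_contra hc
            have : k = 0 := by omega
            rw [this] at hk
            omega
          · have := Nat.lt_two_pow_self (n := k)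
            omega
        calc ∑ n ∈ (Finset.Icc 2 N).filter (fun n => n ∈ S), 1 / ((n : ℝ) * Real.log n) ≤
            ∑ n ∈ (Finset.Icc 1 N).image (fun k : ℕ => (2 ^ k : ℕ)), 1 / (((n : ℕ) : ℝ) * Real.log (n : ℕ)) := by
              refine Finset.sum_le_sum_of_subset_of_nonneg hsub fun n _ _ => ?_
              have := Real.log_natCast_nonneg n
              positivity
          _ = ∑ k ∈ Finset.Icc 1 N, 1 / (((2 ^ k : ℕ) : ℝ) * Real.log ((2 ^ k : ℕ) : ℝ)) :=
              Finset.sum_image fun a _ b _ hab => Nat.pow_right_injective le_rfl hab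
          _ ≤ ∑ k ∈ Finset.Icc 1 N, 2 * (1 / 2 : ℝ) ^ k := by
              refine Finset.sum_le_sum fun k hk => ?_
              rw [Finset.mem_Icc] at hk
              have hk1 : (1 : ℝ) ≤ k := by exact_mod_cast hk.1
              push_cast
              rw [Real.log_pow]
              have h5 : (1 : ℝ) / 2 ≤ k * Real.log 2 := by nlinarith
              calc 1 / ((2 : ℝ) ^ k * (k * Real.log 2)) ≤ 1 / ((2 : ℝ) ^ k * (1 / 2)) :=
                    one_div_le_one_div_of_le (by positivity) (by gcongr)
                _ = _ := by rw [div_pow, one_pow]; field_simp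
          _ ≤ ∑ k ∈ Finset.range (N + 1), 2 * (1 / 2 : ℝ) ^ k := by
              refine Finset.sum_le_sum_of_subset_of_nonneg (fun k hk => ?_) fun _ _ _ => by positivity
              rw [Finset.mem_Icc] at hk
              exact Finset.mem_range.2 (by omega)
          _ ≤ 4 := by
              rw [← Finset.mul_sum]
              have := sum_geometric_two_le (N + 1)
              linarith
      obtain ⟨N, hN⟩ := (h.eventually_ge_atTop 5).exists
      linarith [hbd N]
    filter_upwards [hinf S] with β hβ h0
    by_contra hc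
    exact hnot ((hβ h0).1 hc)

end Pool.Agent.Results.MP_a70bdc_nt.AlmostEveryScale
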