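import Pool.Agent.Results.MP_37e5fa_nt.EveryPrimeFullLevel

/-!
# Primality of `n^n + 1` in every base, at the full level

If `n^n + 1` is prime and `n ≥ 2`, then `n = 2^(2^k)`.  For such `n` and `j + r = k + 2^k`, `r ≥ 2`,
the `2^(r+1)`-th power residue symbol modulo `n^n + 1` of an odd prime `q` is computed in
characteristic `q`, from a root `z` of `z^(2^r) = -1`.  For `j = 0` the level `2^(r+1)` is
`2^(k+1) n`, the order of `2` modulo `n^n + 1`, and nothing is assumed on the size of `q`; for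
`j = k` the level is `2 n` and the formulas are in terms of `n` alone.  Conversely a single
nontrivial symbol forces `n^n + 1` to be prime, and for every integer `b` the symbols of its prime
factors give the order which `b` must have.
-/

set_option autoImplicit false

namespace Pool.Agent.Results.MP_a70bdc_nt.FullLevelEveryBase

open Finset

/-- `c` is an index of the odd prime `q` with respect to the root `z` of `z^(2^r) = -1` in a field
of characteristic `q`: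
`∏_t (1 - 2^(2^j) z^(1/t))^(q - 1 - [q t / 2^(r+1)]) * z^(q c) = 1`,
where `t` runs through the units modulo `2^(r+1)`, `1/t` and `t` being represented by least
residues. -/
def IsIndexAt (j r q : ℕ) {L : Type} [Field L] (z : L) (c : ℕ) : Prop :=
  (∏ t : (ZMod (2 ^ (r + 1)))ˣ, (1 - 2 ^ (2 ^ j) * z ^ (t⁻¹.val.val)) ^
    (q - 1 - q * t.val.val / 2 ^ (r + 1))) * z ^ (q * c) = 1

/-- `c` is an index of `q` for some choice of the field and of the root. -/
def IsIndex (j r q c : ℕ) : Prop :=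
  ∃ (L : Type) (_ : Field L) (_ : CharP L q) (z : L), z ^ (2 ^ r) = -1 ∧ IsIndexAt j r q z c

/-- the index of the natural number `b`, given the indices of its odd prime factors -/
def ind (c : ℕ → ℕ) (b : ℕ) : ℕ := ∑ q ∈ b.primeFactors.erase 2, b.factorization q * c q

/-- the index at the level `2 n` in terms of `n`:
`∏_t (1 - n z^(1/t))^(q - 1 - [q t / (2 n)]) * z^(q c) = 1` for a root `z` of `z^n = -1` in a field
of characteristic `q`, where `t` runs through the units modulo `2 n` -/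
def IsIndexN (n q c : ℕ) : Prop :=
  ∃ (L : Type) (_ : Field L) (_ : CharP L q) (z : L), z ^ n = -1 ∧
    (∏ᶠ t : (ZMod (2 * n))ˣ, (1 - (n : L) * z ^ (t⁻¹.val.val)) ^
      (q - 1 - q * t.val.val / (2 * n))) * z ^ (q * c) = 1

theorem fermat_eq {k n : ℕ} (hn : n = 2 ^ 2 ^ k) : Nat.fermatNumber (k + 2 ^ k) = n ^ n + 1 := by
  unfold Nat.fermatNumber
  rw [pow_add, pow_mul, ← hn]

theorem isIndexN_iff {k n : ℕ} (hn : n = 2 ^ 2 ^ k) (q c : ℕ) :
    IsIndexN n q c ↔ IsIndex k (2 ^ k) q c := by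
  have h2 : 2 * n = 2 ^ (2 ^ k + 1) := by rw [hn]; ring
  have e : ∀ (L : Type) [Field L] (z : L),
      (∏ᶠ t : (ZMod (2 * n))ˣ, (1 - (n : L) * z ^ (t⁻¹.val.val)) ^
        (q - 1 - q * t.val.val / (2 * n))) =
      ∏ t : (ZMod (2 ^ (2 ^ k + 1)))ˣ, (1 - 2 ^ (2 ^ k) * z ^ (t⁻¹.val.val)) ^
        (q - 1 - q * t.val.val / 2 ^ (2 ^ k + 1)) := by
    intro L _ z
    rw [← finprod_eq_prod_of_fintype, h2]
    have e : (n : L) = (2 : L) ^ 2 ^ k := by rw [hn]; push_cast; rfl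
    rw [e]
  unfold IsIndexN IsIndex IsIndexAt
  constructor
  · rintro ⟨L, i1, i2, z, hz, h⟩
    refine ⟨L, i1, i2, z, by rw [← hn]; exact hz, ?_⟩
    rw [← e L z]
    exact h
  · rintro ⟨L, i1, i2, z, hz, h⟩
    refine ⟨L, i1, i2, z, by rw [← hn] at hz; exact hz, ?_⟩
    rw [e L z]
    exact h

theorem result (k n : ℕ) (hk : 1 ≤ k) (hn : n = 2 ^ 2 ^ k) :
    -- every level `2 ^ (r + 1)`, `j + r = k + 2 ^ k`
    (∀ j r : ℕ, 2 ≤ r → j + r = k + 2 ^ k →
      -- existence and uniqueness of the index of an odd prime, for every choice of the root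
      (∀ q : ℕ, q.Prime → q ≠ 2 → ¬ q ∣ n ^ n + 1 →
        ∀ (L : Type) [Field L] [CharP L q] (z : L), z ^ (2 ^ r) = -1 →
          ∃ c < 2 ^ (r + 1), ∀ c' : ℕ, IsIndexAt j r q z c' ↔ c' ≡ c [MOD 2 ^ (r + 1)]) ∧
      -- the power residue law and the criteria, for every integer
      ∀ (b : ℤ) (c : ℕ → ℕ), b ≠ 0 →
        (∀ q : ℕ, q.Prime → q ≠ 2 → (q : ℤ) ∣ b → ¬ q ∣ n ^ n + 1 ∧ IsIndex j r q (c q)) →
        ((n ^ n + 1).Prime →
          (b : ZMod (n ^ n + 1)) ^ (n ^ n / 2 ^ (r + 1)) * 2 ^ (2 ^ j * ind c b.natAbs) = 1) ∧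
        (¬ 2 ^ (r + 1) ∣ ind c b.natAbs →
          ((n ^ n + 1).Prime ↔
            (b : ZMod (n ^ n + 1)) ^ (n ^ n / 2 ^ (r + 1)) * 2 ^ (2 ^ j * ind c b.natAbs) = 1) ∧
          ((n ^ n + 1).Prime ↔
            orderOf (b : ZMod (n ^ n + 1)) = n ^ n / 2 ^ padicValNat 2 (ind c b.natAbs)))) ∧
    -- the level `2 n`, in terms of `n`
    (∀ (b : ℤ) (c : ℕ → ℕ), b ≠ 0 →
      (∀ q : ℕ, q.Prime → q ≠ 2 → (q : ℤ) ∣ b → ¬ q ∣ n ^ n + 1 ∧ IsIndexN n q (c q)) →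
      ((n ^ n + 1).Prime →
        (b : ZMod (n ^ n + 1)) ^ (n ^ (n - 1) / 2) * (n : ZMod (n ^ n + 1)) ^ ind c b.natAbs = 1) ∧
      (¬ 2 * n ∣ ind c b.natAbs →
        ((n ^ n + 1).Prime ↔
          (b : ZMod (n ^ n + 1)) ^ (n ^ (n - 1) / 2) *
            (n : ZMod (n ^ n + 1)) ^ ind c b.natAbs = 1) ∧
        ((n ^ n + 1).Prime ↔
          orderOf (b : ZMod (n ^ n + 1)) = n ^ n / 2 ^ padicValNat 2 (ind c b.natAbs)))) := by
  have hnn : n ^ n = 2 ^ (2 ^ (k + 2 ^ k)) := by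
    have := fermat_eq hn
    unfold Nat.fermatNumber at this
    omega
  have main : ∀ j r : ℕ, 2 ≤ r → j + r = k + 2 ^ k →
      (∀ q : ℕ, q.Prime → q ≠ 2 → ¬ q ∣ n ^ n + 1 →
        ∀ (L : Type) [Field L] [CharP L q] (z : L), z ^ (2 ^ r) = -1 →
          ∃ c < 2 ^ (r + 1), ∀ c' : ℕ, IsIndexAt j r q z c' ↔ c' ≡ c [MOD 2 ^ (r + 1)]) ∧
      ∀ (b : ℤ) (c : ℕ → ℕ), b ≠ 0 →
        (∀ q : ℕ, q.Prime → q ≠ 2 → (q : ℤ) ∣ b → ¬ q ∣ n ^ n + 1 ∧ IsIndex j r q (c q)) →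
        ((n ^ n + 1).Prime →
          (b : ZMod (n ^ n + 1)) ^ (n ^ n / 2 ^ (r + 1)) * 2 ^ (2 ^ j * ind c b.natAbs) = 1) ∧
        (¬ 2 ^ (r + 1) ∣ ind c b.natAbs →
          ((n ^ n + 1).Prime ↔
            (b : ZMod (n ^ n + 1)) ^ (n ^ n / 2 ^ (r + 1)) * 2 ^ (2 ^ j * ind c b.natAbs) = 1) ∧
          ((n ^ n + 1).Prime ↔
            orderOf (b : ZMod (n ^ n + 1)) = n ^ n / 2 ^ padicValNat 2 (ind c b.natAbs))) := by
    intro j r hr hjr
    have h3 : 3 ≤ j + r := by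
      have : 2 ^ 1 ≤ 2 ^ k := Nat.pow_le_pow_right (by norm_num) hk
      omega
    have h := Pool.Agent.Results.MP_37e5fa_nt.EveryPrimeFullLevel.result j r hr h3
    have hF : Nat.fermatNumber (j + r) = n ^ n + 1 := by rw [hjr]; exact fermat_eq hn
    rw [hF] at h
    refine ⟨h.1, fun b c hb hc => ?_⟩
    obtain ⟨h1, h2⟩ := h.2 b c hb hc
    have e1 : (n ^ n + 1 - 1) / 2 ^ (r + 1) = n ^ n / 2 ^ (r + 1) := by rw [Nat.add_sub_cancel]
    rw [e1] at h1 h2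
    refine ⟨h1, fun hd => ?_⟩
    obtain ⟨h4, h5⟩ := h2 hd
    refine ⟨h4, ?_⟩
    have hv : padicValNat 2 (ind c b.natAbs) ≤ r := by
      by_contra hvr
      apply hd
      exact (Nat.pow_dvd_pow 2 (by omega)).trans pow_padicValNat_dvd
    have hle : padicValNat 2 (ind c b.natAbs) ≤ 2 ^ (j + r) := by
      have : j + r < 2 ^ (j + r) := Nat.lt_two_pow_self
      omega
    have e2 : n ^ n / 2 ^ padicValNat 2 (ind c b.natAbs) =
        2 ^ (2 ^ (j + r) - padicValNat 2 (ind c b.natAbs)) := by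
      rw [hnn, ← hjr, Nat.pow_div hle (by norm_num)]
    rw [e2]
    exact h5
  refine ⟨main, fun b c hb hc => ?_⟩
  have hr : 2 ≤ 2 ^ k := by
    calc 2 = 2 ^ 1 := rfl
      _ ≤ 2 ^ k := Nat.pow_le_pow_right (by norm_num) hk
  have h := (main k (2 ^ k) hr rfl).2 b c hb (fun q hq hq2 hqb =>
    ⟨(hc q hq hq2 hqb).1, (isIndexN_iff hn q _).1 (hc q hq hq2 hqb).2⟩)
  have h2n : 2 ^ (2 ^ k + 1) = 2 * n := by rw [hn]; ring
  have hn0 : 0 < n := by rw [hn]; positivity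
  have e3 : n ^ n / (2 * n) = n ^ (n - 1) / 2 := by
    rw [mul_comm 2 n, ← Nat.div_div_eq_div_mul]
    congr 1
    have : n ^ n = n ^ (n - 1) * n := by
      rw [← pow_succ, Nat.sub_add_cancel hn0]
    rw [this, Nat.mul_div_cancel _ hn0]
  have e4 : (2 : ZMod (n ^ n + 1)) ^ (2 ^ k * ind c b.natAbs) =
      (n : ZMod (n ^ n + 1)) ^ ind c b.natAbs := by
    rw [pow_mul]
    congr 1
    conv_rhs => rw [show (n : ZMod (n ^ n + 1)) = ((2 ^ 2 ^ k : ℕ) : ZMod (n ^ n + 1)) from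
      congrArg _ hn]
    push_cast
    rfl
  rw [h2n, e3, e4] at h
  exact h

end Pool.Agent.Results.MP_a70bdc_nt.FullLevelEveryBase
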