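import Pool.Agent.Results.MP_37e5fa_nt.SmallerFermatFactors

/-!
# Primality of `n^n + 1` in the bases composed of the prime factors of `n^2 - 1`

If `n^n + 1` is prime and `n ≥ 2`, then `n = 2^(2^k)`.  Let `k ≥ 2` and let `b > 1` be a number all
of whose prime factors divide `n^2 - 1 = F_0 F_1 ⋯ F_k`.  If `n^n + 1` is prime, the `2n`-th power
residue symbol of `b` modulo `n^n + 1` is given by `y = (b^(n/2) - 1) / (2n)` and the sign
`(-1)^(v_3(b) + v_5(b))`.  If `8n` does not divide `b^2 - 1`, then `n^n + 1` is prime if and only if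
this congruence holds, and if and only if `b` has order `8 n^n / 2^(v_2(b^2 - 1))`.  More generally
the bases composed of the prime factors of `2^(2^(j+1)) - 1` are treated at the level `2^(r+1)`,
`j + r = k + 2^k`.
-/

set_option autoImplicit false

namespace Pool.Agent.Results.MP_a70bdc_nt.SmallerFactorBases

open Finset

/-- The number of prime factors of `b`, counted with multiplicity, which are `3` or `5` and do not
divide `2^(2^j) + 1`. -/
def sgnExp (j b : ℕ) : ℕ :=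
  ∑ q ∈ ({3, 5} : Finset ℕ) with ¬ q ∣ 2 ^ (2 ^ j) + 1, b.factorization q

theorem fermat_eq {k n : ℕ} (hn : n = 2 ^ 2 ^ k) : Nat.fermatNumber (k + 2 ^ k) = n ^ n + 1 := by
  unfold Nat.fermatNumber
  rw [pow_add, pow_mul, ← hn]

/-- the prime factors of `2^(2^(j+1)) - 1` are those of `F_0, …, F_j` -/
theorem dvd_fermat {j q : ℕ} (hq : q.Prime) (h : q ∣ 2 ^ (2 ^ (j + 1)) - 1) :
    ∃ i ≤ j, q ∣ Nat.fermatNumber i := by
  have h1 : ∏ i ∈ range (j + 1), Nat.fermatNumber i = 2 ^ (2 ^ (j + 1)) - 1 := by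
    rw [Nat.prod_fermatNumber]
    unfold Nat.fermatNumber
    omega
  rw [← h1] at h
  obtain ⟨i, hi, hd⟩ := (Prime.dvd_finsetProd_iff hq.prime _).1 h
  exact ⟨i, by rw [mem_range] at hi; omega, hd⟩

theorem result (k n : ℕ) (hk : 1 ≤ k) (hn : n = 2 ^ 2 ^ k) :
    -- every level `2 ^ (r + 1)`, `j + r = k + 2 ^ k`
    (∀ j r b : ℕ, 2 ≤ r → j + r = k + 2 ^ k → b ≠ 1 →
      (∀ q : ℕ, q.Prime → q ∣ b → q ∣ 2 ^ (2 ^ (j + 1)) - 1) →
      ∃ y : ℕ, b ^ (2 ^ (r - 1)) = 1 + 2 ^ (r + 1) * y ∧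
        padicValNat 2 y + 3 = padicValNat 2 (b ^ 2 - 1) ∧
        ((n ^ n + 1).Prime →
          (b : ZMod (n ^ n + 1)) ^ (n ^ n / 2 ^ (r + 1)) * 2 ^ (2 ^ j * y) =
            (-1) ^ (sgnExp j b)) ∧
        (padicValNat 2 y < r ∨ padicValNat 2 y = r ∧ Even (sgnExp j b) →
          ((n ^ n + 1).Prime ↔
            (b : ZMod (n ^ n + 1)) ^ (n ^ n / 2 ^ (r + 1)) * 2 ^ (2 ^ j * y) =
              (-1) ^ (sgnExp j b)) ∧
          ((n ^ n + 1).Prime ↔
            orderOf (b : ZMod (n ^ n + 1)) = n ^ n / 2 ^ padicValNat 2 y))) ∧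
    -- the level `2 n`
    (2 ≤ k → ∀ b : ℕ, b ≠ 1 → (∀ q : ℕ, q.Prime → q ∣ b → q ∣ n ^ 2 - 1) →
      ∃ y : ℕ, b ^ (n / 2) = 1 + 2 * n * y ∧
        ((n ^ n + 1).Prime →
          (b : ZMod (n ^ n + 1)) ^ (n ^ (n - 1) / 2) * (n : ZMod (n ^ n + 1)) ^ y =
            (-1) ^ (b.factorization 3 + b.factorization 5)) ∧
        (¬ 8 * n ∣ b ^ 2 - 1 →
          ((n ^ n + 1).Prime ↔
            (b : ZMod (n ^ n + 1)) ^ (n ^ (n - 1) / 2) * (n : ZMod (n ^ n + 1)) ^ y =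
              (-1) ^ (b.factorization 3 + b.factorization 5)) ∧
          ((n ^ n + 1).Prime ↔
            orderOf (b : ZMod (n ^ n + 1)) * 2 ^ padicValNat 2 (b ^ 2 - 1) = 8 * n ^ n))) := by
  have hnn : n ^ n = 2 ^ (2 ^ (k + 2 ^ k)) := by
    have := fermat_eq hn
    unfold Nat.fermatNumber at this
    omega
  have main : ∀ j r b : ℕ, 2 ≤ r → j + r = k + 2 ^ k → b ≠ 1 →
      (∀ q : ℕ, q.Prime → q ∣ b → q ∣ 2 ^ (2 ^ (j + 1)) - 1) →
      ∃ y : ℕ, b ^ (2 ^ (r - 1)) = 1 + 2 ^ (r + 1) * y ∧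
        padicValNat 2 y + 3 = padicValNat 2 (b ^ 2 - 1) ∧
        ((n ^ n + 1).Prime →
          (b : ZMod (n ^ n + 1)) ^ (n ^ n / 2 ^ (r + 1)) * 2 ^ (2 ^ j * y) =
            (-1) ^ (sgnExp j b)) ∧
        (padicValNat 2 y < r ∨ padicValNat 2 y = r ∧ Even (sgnExp j b) →
          ((n ^ n + 1).Prime ↔
            (b : ZMod (n ^ n + 1)) ^ (n ^ n / 2 ^ (r + 1)) * 2 ^ (2 ^ j * y) =
              (-1) ^ (sgnExp j b)) ∧
          ((n ^ n + 1).Prime ↔
            orderOf (b : ZMod (n ^ n + 1)) = n ^ n / 2 ^ padicValNat 2 y)) := by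
    intro j r b hr hjr hb1 hb
    obtain ⟨y, h1, h2, h3, h4⟩ := Pool.Agent.Results.MP_37e5fa_nt.SmallerFermatFactors.result
      j r b hr hb1 (fun q hq hqb => dvd_fermat hq (hb q hq hqb))
    have hF : Nat.fermatNumber (j + r) = n ^ n + 1 := by rw [hjr]; exact fermat_eq hn
    have hs : Pool.Agent.Results.MP_37e5fa_nt.SmallerFermatFactors.sgnExp j b = sgnExp j b := rfl
    have e1 : (n ^ n + 1 - 1) / 2 ^ (r + 1) = n ^ n / 2 ^ (r + 1) := by rw [Nat.add_sub_cancel]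
    rw [hF, hs, e1] at h3
    rw [hF, hs, e1] at h4
    refine ⟨y, h1, h2, h3, fun hv => ?_⟩
    obtain ⟨h5, h6⟩ := h4 hv
    refine ⟨h5, ?_⟩
    have hle : padicValNat 2 y ≤ 2 ^ (j + r) := by
      have : j + r < 2 ^ (j + r) := Nat.lt_two_pow_self
      omega
    have e2 : n ^ n / 2 ^ padicValNat 2 y = 2 ^ (2 ^ (j + r) - padicValNat 2 y) := by
      rw [hnn, ← hjr, Nat.pow_div hle (by norm_num)]
    rw [e2]
    exact h6
  refine ⟨main, fun hk2 b hb1 hb => ?_⟩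
  have hr : 2 ≤ 2 ^ k := by
    calc 2 = 2 ^ 1 := rfl
      _ ≤ 2 ^ k := Nat.pow_le_pow_right (by norm_num) hk
  have hn2 : n ^ 2 = 2 ^ (2 ^ (k + 1)) := by rw [hn]; ring
  obtain ⟨y, h1, h2, h3, h4⟩ := main k (2 ^ k) b hr rfl hb1 (by rw [← hn2]; exact hb)
  have h2n : 2 ^ (2 ^ k + 1) = 2 * n := by rw [hn]; ring
  have hn0 : 0 < n := by rw [hn]; positivity
  have e0 : 2 ^ (2 ^ k - 1) = n / 2 := by
    have : n = 2 ^ (2 ^ k - 1) * 2 := by
      rw [← pow_succ, Nat.sub_add_cancel (by omega)]; exact hn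
    rw [this, Nat.mul_div_cancel _ (by norm_num)]
  have e3 : n ^ n / (2 * n) = n ^ (n - 1) / 2 := by
    rw [mul_comm 2 n, ← Nat.div_div_eq_div_mul]
    congr 1
    have : n ^ n = n ^ (n - 1) * n := by
      rw [← pow_succ, Nat.sub_add_cancel hn0]
    rw [this, Nat.mul_div_cancel _ hn0]
  have e4 : (2 : ZMod (n ^ n + 1)) ^ (2 ^ k * y) = (n : ZMod (n ^ n + 1)) ^ y := by
    rw [pow_mul]
    congr 1
    conv_rhs => rw [show (n : ZMod (n ^ n + 1)) = ((2 ^ 2 ^ k : ℕ) : ZMod (n ^ n + 1)) from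
      congrArg _ hn]
    push_cast
    rfl
  have e5 : sgnExp k b = b.factorization 3 + b.factorization 5 := by
    unfold sgnExp
    have hcop : ∀ i : ℕ, i < k → ∀ q : ℕ, q.Prime → q ∣ Nat.fermatNumber i → ¬ q ∣ 2 ^ 2 ^ k + 1 := by
      intro i hi q hq h6 h7
      have h8 := Nat.coprime_fermatNumber_fermatNumber (m := i) (n := k) (by omega)
      have h9 := Nat.dvd_gcd h6 (show q ∣ Nat.fermatNumber k from h7)
      rw [h8] at h9
      exact hq.one_lt.ne' (Nat.dvd_one.mp h9)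
    have h3' : ¬ 3 ∣ 2 ^ 2 ^ k + 1 := hcop 0 (by omega) 3 Nat.prime_three (by
      rw [Nat.fermatNumber_zero])
    have h5' : ¬ 5 ∣ 2 ^ 2 ^ k + 1 := hcop 1 (by omega) 5 Nat.prime_five (by
      rw [Nat.fermatNumber_one])
    have : ({3, 5} : Finset ℕ).filter (fun q => ¬ q ∣ 2 ^ 2 ^ k + 1) = {3, 5} := by
      rw [Finset.filter_eq_self]
      intro q hq
      rw [Finset.mem_insert, Finset.mem_singleton] at hq
      rcases hq with rfl | rfl
      · exact h3'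
      · exact h5'
    rw [this, Finset.sum_pair (by norm_num)]
  rw [e0, h2n] at h1
  rw [h2n, e3, e4, e5] at h3 h4
  refine ⟨y, h1, h3, fun h8 => ?_⟩
  have hv : padicValNat 2 y < 2 ^ k := by
    by_contra hcon
    apply h8
    have h9 : 8 * n = 2 ^ (2 ^ k + 3) := by rw [hn]; ring
    rw [h9]
    exact (Nat.pow_dvd_pow 2 (by omega)).trans pow_padicValNat_dvd
  obtain ⟨h5, h6⟩ := h4 (Or.inl hv)
  refine ⟨h5, h6.trans ?_⟩
  have hle : padicValNat 2 y ≤ 2 ^ (k + 2 ^ k) := by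
    have : k + 2 ^ k < 2 ^ (k + 2 ^ k) := Nat.lt_two_pow_self
    omega
  have hdv : 2 ^ padicValNat 2 y ∣ n ^ n := by
    rw [hnn]
    exact Nat.pow_dvd_pow 2 hle
  obtain ⟨w, hw⟩ := hdv
  have hp : 0 < 2 ^ padicValNat 2 y := by positivity
  rw [← h2, hw, Nat.mul_div_cancel_left _ hp, pow_add]
  constructor
  · intro h
    rw [h]
    ring
  · intro h
    have h' : 2 ^ padicValNat 2 y * 8 * orderOf (b : ZMod (2 ^ padicValNat 2 y * w + 1)) =
        2 ^ padicValNat 2 y * 8 * w := by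
      have e8 : (2 : ℕ) ^ 3 = 8 := by norm_num
      rw [e8] at h
      linarith
    exact Nat.eq_of_mul_eq_mul_left (by positivity) h'

end Pool.Agent.Results.MP_a70bdc_nt.SmallerFactorBases
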